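import Pool.Agent.W416.Equidim

set_option autoImplicit false

/-!
MP_07e2b8_al, Q1: a counterexample over a reduced, equidimensional Cohen–Macaulay local ring.

The ring is `R = T[x, w]/(x² - αx - βw, xw - γx, w² - γw)`, free of rank three over the regular
local ring `T = ℚ⟦α, β, γ⟧`, and `N = R/I` is the cyclic module of projective dimension at most
three of the starting modules `H607R3/PS` (the example behind `S02868`).  With `s = γ - w` one has
`V(s) ∩ Supp N = {𝔪}` while `dim N ≥ 1`, so the minimal primes of `R` that contain `s` lie in no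
minimal prime of `N`.
-/

namespace Pool.Agent.Results.MP_07e2b8_al.CohenMacaulayCounterexample

open Pool.Agent.H607R3.PS H51R3.PS Pool.Agent.W416.Equidim

/-- There are a Noetherian local ring `R` which is reduced, Cohen–Macaulay of dimension three (it
has a regular sequence of length `3 = dim R`) and equidimensional (every minimal prime has
coheight three), a nonzero finitely generated `R`-module `N` of projective dimension at most three,
and a minimal prime `p` of `R` that is contained in no minimal prime of `N`. -/
theorem result :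
    ∃ (R : Type) (_ : CommRing R) (_ : IsNoetherianRing R) (_ : IsLocalRing R)
      (N : Type) (_ : AddCommGroup N) (_ : Module R N),
      IsReduced R ∧ ringKrullDim R = 3 ∧
      (∃ rs : List R, rs.length = 3 ∧ RingTheory.Sequence.IsRegular R rs) ∧
      (∀ p ∈ minimalPrimes R, ringKrullDim (R ⧸ p) = 3) ∧
      Module.Finite R N ∧ Nontrivial N ∧
      CategoryTheory.HasProjectiveDimensionLE (ModuleCat.of R N) 3 ∧
      ∃ p ∈ minimalPrimes R, ∀ q ∈ (Module.annihilator R N).minimalPrimes, ¬ (p ≤ q) := by
  obtain ⟨T, iT, iL, iN, iD, α, β, γ, hB⟩ := Pool.Agent.H291R3.PSB.taskBase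
  obtain ⟨hα, hβ, hγ⟩ := mem_max hB
  have hloc : IsLocalRing (RR T α β γ) :=
    Pool.Agent.H607R3.PS.taskLoc T α β γ hα hβ hγ
  refine ⟨RR T α β γ, inferInstance, inferInstance, hloc,
    RR T α β γ ⧸ cI (RR.x : RR T α β γ) RR.y RR.z RR.w RR.s, inferInstance, inferInstance,
    reduced hB, dimR_eq hB, ⟨_, rfl, regularSeq hB⟩, dim_quot_minimal hB, inferInstance, ?_, ?_, ?_⟩
  · by_contra hcon
    rw [not_nontrivial_iff_subsingleton] at hcon
    have h1 := dimN hB
    rw [ringKrullDim_eq_bot_of_subsingleton] at h1
    exact absurd h1 (by decide)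
  · have h := pd_of_ex (exR hB)
    rw [range_d1L] at h
    exact h
  · obtain ⟨p, hp, hsp⟩ := exists_minimal hB
    refine ⟨p, hp, ?_⟩
    intro q hq hpq
    rw [Ideal.annihilator_quotient] at hq
    exact not_mem_of_minimal Pool.Agent.H832R3.PS.taskFL hB q hq (hpq hsp)

end Pool.Agent.Results.MP_07e2b8_al.CohenMacaulayCounterexample
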